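import Mathlib
import Pool.Agent.X94.LocLieD

/-!
# The tangent algebra of the local automorphisms is the space of local derivations

For every finite-dimensional (not necessarily associative) algebra over `ℝ` or `ℂ` the set of all
linear maps `X` such that `exp (t X)` is a local automorphism for every real `t` is exactly the set
of the local derivations.
-/

set_option autoImplicit false

namespace Pool.Agent.Results.MP_9b03f8_al.TangentIsLocDer

variable {𝕜 : Type*} [RCLike 𝕜] {A : Type*} [NormedAddCommGroup A] [NormedSpace 𝕜 A]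

/-- `D` is a derivation of the algebra `A` with the bilinear product `μ`. -/
def IsDerivation (μ : A →ₗ[𝕜] A →ₗ[𝕜] A) (D : A →ₗ[𝕜] A) : Prop :=
  ∀ a b, D (μ a b) = μ (D a) b + μ a (D b)

/-- `g` is an automorphism of the algebra `A` with the bilinear product `μ`. -/
def IsAutomorphism (μ : A →ₗ[𝕜] A →ₗ[𝕜] A) (g : A →ₗ[𝕜] A) : Prop :=
  Function.Bijective g ∧ ∀ a b, g (μ a b) = μ (g a) (g b)

/-- `Δ` is a local derivation. -/
def IsLocalDerivation (μ : A →ₗ[𝕜] A →ₗ[𝕜] A) (Δ : A →ₗ[𝕜] A) : Prop :=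
  ∀ x, ∃ D, IsDerivation μ D ∧ Δ x = D x

/-- `φ` is a local automorphism. -/
def IsLocalAutomorphism (μ : A →ₗ[𝕜] A →ₗ[𝕜] A) (φ : A →ₗ[𝕜] A) : Prop :=
  ∀ x, ∃ g, IsAutomorphism μ g ∧ φ x = g x

/-- the exponential `exp (t X)` of a linear map of a finite-dimensional space, `t` real. -/
noncomputable def expL [FiniteDimensional 𝕜 A] (X : A →ₗ[𝕜] A) (t : ℝ) : A →ₗ[𝕜] A :=
  ((NormedSpace.exp ((t : 𝕜) • (LinearMap.toContinuousLinearMap X : A →L[𝕜] A)) : A →L[𝕜] A) :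
    A →ₗ[𝕜] A)

open Pool.Agent.X94.LocLie

lemma der_iff [FiniteDimensional 𝕜 A] (μ : A →ₗ[𝕜] A →ₗ[𝕜] A) (μc : A →L[𝕜] A →L[𝕜] A)
    (hμ : ∀ a b, μc a b = μ a b) (D : A →L[𝕜] A) :
    IsDer μc D ↔ IsDerivation μ (D : A →ₗ[𝕜] A) := by
  constructor
  · intro h a b
    have h1 := congrArg (fun f : A →L[𝕜] A => f b) (h a)
    have h2 : D (μc a b) = μc (D a) b + μc a (D b) := h1
    rw [hμ, hμ, hμ] at h2
    exact h2
  · intro h a
    ext b
    show D (μc a b) = μc (D a) b + μc a (D b)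
    rw [hμ, hμ, hμ]
    exact h a b

lemma aut_iff [FiniteDimensional 𝕜 A] (μ : A →ₗ[𝕜] A →ₗ[𝕜] A) (μc : A →L[𝕜] A →L[𝕜] A)
    (hμ : ∀ a b, μc a b = μ a b) (g : A →L[𝕜] A) :
    IsAut μc g ↔ IsAutomorphism μ (g : A →ₗ[𝕜] A) := by
  constructor
  · rintro ⟨⟨k, k1, k2⟩, h⟩
    refine ⟨⟨fun a b hab => ?_, fun b => ⟨k b, ?_⟩⟩, fun a b => ?_⟩
    · have e : ∀ c, k (g c) = c := fun c => congrArg (fun f : A →L[𝕜] A => f c) k2
      have hab' : g a = g b := hab
      rw [← e a, ← e b, hab']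
    · exact congrArg (fun f : A →L[𝕜] A => f b) k1
    · have h1 := congrArg (fun f : A →L[𝕜] A => f b) (h a)
      have h2 : g (μc a b) = μc (g a) (g b) := h1
      rw [hμ, hμ] at h2
      exact h2
  · rintro ⟨hb, h⟩
    let e : A ≃ₗ[𝕜] A := LinearEquiv.ofBijective (g : A →ₗ[𝕜] A) hb
    have he : ∀ a, e a = g a := fun a => rfl
    let k : A →L[𝕜] A := LinearMap.toContinuousLinearMap (e.symm : A →ₗ[𝕜] A)
    have hk : ∀ a, k a = e.symm a := fun a => rfl
    refine ⟨⟨k, ?_, ?_⟩, fun a => ?_⟩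
    · ext b
      show g (k b) = b
      rw [hk, ← he, e.apply_symm_apply]
    · ext b
      show k (g b) = b
      rw [hk, ← he, e.symm_apply_apply]
    · ext b
      show g (μc a b) = μc (g a) (g b)
      rw [hμ, hμ]
      exact h a b

/-- For every finite-dimensional algebra over `ℝ` or `ℂ`, the set of the linear maps `X` with
`exp (t X)` a local automorphism for all real `t` is the set of the local derivations. -/
theorem result {𝕜 : Type*} [RCLike 𝕜] {A : Type*} [NormedAddCommGroup A] [NormedSpace 𝕜 A]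
    [FiniteDimensional 𝕜 A] (μ : A →ₗ[𝕜] A →ₗ[𝕜] A) :
    {X : A →ₗ[𝕜] A | ∀ t : ℝ, IsLocalAutomorphism μ (expL X t)} =
      {X : A →ₗ[𝕜] A | IsLocalDerivation μ X} := by
  letI inst1 : NormedAlgebra ℝ (A →L[𝕜] A) := NormedAlgebra.restrictScalars ℝ 𝕜 (A →L[𝕜] A)
  haveI inst2 : IsScalarTower ℝ 𝕜 (A →L[𝕜] A) := IsScalarTower.of_algebraMap_smul fun r x => rfl
  let μc : A →L[𝕜] A →L[𝕜] A := LinearMap.toContinuousLinearMap
    ((LinearMap.toContinuousLinearMap : (A →ₗ[𝕜] A) ≃ₗ[𝕜] (A →L[𝕜] A)).toLinearMap ∘ₗ μ)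
  have hμ : ∀ a b, μc a b = μ a b := fun a b => rfl
  have hexp : ∀ (X : A →ₗ[𝕜] A) (t : ℝ) (x : A), expL X t x =
      NormedSpace.exp (t • (LinearMap.toContinuousLinearMap X : A →L[𝕜] A)) x := by
    intro X t x
    have h1 : t • (LinearMap.toContinuousLinearMap X : A →L[𝕜] A) =
        ((t : ℝ) : 𝕜) • (LinearMap.toContinuousLinearMap X : A →L[𝕜] A) :=
      RCLike.real_smul_eq_coe_smul t _
    rw [h1]; rfl
  have hcoe : ∀ f : A →ₗ[𝕜] A, ((LinearMap.toContinuousLinearMap f : A →L[𝕜] A) : A →ₗ[𝕜] A) = f :=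
    fun f => rfl
  ext X
  simp only [Set.mem_ofPred_eq]
  set Xc : A →L[𝕜] A := LinearMap.toContinuousLinearMap X with hXc
  constructor
  · intro h x
    have h1 := reverse μc Xc (fun t x => ?_) x
    · obtain ⟨D, hD, hDx⟩ := mem_V.mp h1
      exact ⟨D, (der_iff μ μc hμ D).mp hD, hDx.symm⟩
    · obtain ⟨g, hg, hgx⟩ := h t x
      refine ⟨LinearMap.toContinuousLinearMap g, (aut_iff μ μc hμ _).mpr (by rwa [hcoe]), ?_⟩
      rw [← hexp]
      exact hgx
  · intro h t x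
    have hX : ∀ x, ∃ D, IsDer μc D ∧ Xc x = D x := by
      intro x
      obtain ⟨D, hD, hDx⟩ := h x
      exact ⟨LinearMap.toContinuousLinearMap D, (der_iff μ μc hμ _).mpr (by rwa [hcoe]), hDx⟩
    obtain ⟨g, hg, hgx⟩ := flow_global μc Xc hX x t
    refine ⟨g, (aut_iff μ μc hμ g).mp hg, ?_⟩
    rw [hexp]
    exact hgx

end Pool.Agent.Results.MP_9b03f8_al.TangentIsLocDer
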